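import Pool.Agent.Lib.MP_1ae3da_al.Main

/-! Navarro's group `H` cannot be enlarged beyond its closure: every Galois automorphism outside
the closure of `H` fails to commute with any McKay bijection for a suitable finite group. -/

namespace Pool.Agent.Results.MP_1ae3da_al.Maximality

/-- The algebraic closure of the rationals. -/
abbrev Qbar : Type := AlgebraicClosure ℚ

/-- The irreducible characters of `G` of degree not divisible by `p`. -/
def IrrP (p : ℕ) (G : Type) [Group G] : Set (G → Qbar) :=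
  {χ | ∃ (n : ℕ) (ρ : Representation Qbar G (Fin n → Qbar)),
    ρ.IsIrreducible ∧ χ = ρ.character ∧ ¬ p ∣ n}

/-- Navarro's group `H`. -/
def H (p : ℕ) : Set (Qbar ≃ₐ[ℚ] Qbar) :=
  {σ | ∃ e : ℕ, ∀ (n : ℕ) (ξ : Qbar), n.Coprime p → ξ ^ n = 1 → σ ξ = ξ ^ p ^ e}

theorem result (p : ℕ) [Fact p.Prime] (σ : Qbar ≃ₐ[ℚ] Qbar) (hσ : σ ∉ closure (H p)) :
    ∃ (G : Type) (_ : Group G) (_ : Finite G) (P : Sylow p G),
      ¬ ∃ f : IrrP p G ≃ IrrP p (Subgroup.normalizer (P : Set G)),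
        ∀ χ ψ : IrrP p G, ψ.1 = σ ∘ χ.1 → (f ψ).1 = σ ∘ (f χ).1 := by
  have key : ∀ (G : Type) [Group G], IrrP p G
      = {χ : G → Qbar | ∃ n, Lib.MP_1ae3da_al.IsIrr n χ ∧ ¬ p ∣ n} := by
    intro G _
    ext χ
    constructor
    · rintro ⟨n, ρ, h1, h2, h3⟩
      exact ⟨n, ⟨ρ, h1, h2⟩, h3⟩
    · rintro ⟨n, ⟨ρ, h1, h2⟩, h3⟩
      exact ⟨n, ρ, h1, h2, h3⟩
  haveI : Algebra.IsAlgebraic ℚ Qbar := AlgebraicClosure.isAlgebraic ℚ
  obtain ⟨G, i1, i2, P, h⟩ := Lib.MP_1ae3da_al.no_bijection p (σ : Qbar ≃+* Qbar)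
    (fun h => hσ (Lib.MP_1ae3da_al.mem_closure_of_local p Fact.out σ h))
  refine ⟨G, i1, i2, P, ?_⟩
  rw [key, key]
  exact h

end Pool.Agent.Results.MP_1ae3da_al.Maximality
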