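import Pool.Agent.Lib.MP_1ae3da_al.GAll

/-! The McKay-Galois conjecture for the Schur double covers of the symmetric and alternating
groups and odd primes. -/

namespace Pool.Agent.Lib.MP_1ae3da_al.Old.SpinCovers

open Pool.Agent.Lib.MP_1ae3da_al

theorem spin_covers (n p : ℕ) (hp : p.Prime) (hp2 : p ≠ 2) (X : Type) [Group X] [Finite X]
    (π : X →* Equiv.Perm (Fin n)) (hs : Function.Surjective π) (hk : Nat.card π.ker = 2)
    (hc : ∃ (x y : X) (a b c d : Fin n), [a, b, c, d].Nodup ∧ π x = Equiv.swap a b ∧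
      π y = Equiv.swap c d ∧ x * y ≠ y * x)
    (G : Subgroup X) (hG : (alternatingGroup (Fin n)).comap π ≤ G) (P : Sylow p G) :
    ∃ f : NSV.IrrP p G ≃ NSV.IrrP p (Subgroup.normalizer (P : Set G)),
      ∀ σ ∈ NSV.H p, ∀ χ ψ : NSV.IrrP p G, ψ.1 = σ ∘ χ.1 → (f ψ).1 = σ ∘ (f χ).1 :=
  GM.thm2 n p hp hp2 X π hs hk hc G (fun _ hx => hG hx) P

end Pool.Agent.Lib.MP_1ae3da_al.Old.SpinCovers
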