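import Pool.Agent.Lib.MP_1ae3da_al.W16

/-! The McKay-Galois conjecture passes from a finite group `G` to the wreath products of `G` with
the symmetric and the alternating groups, for odd primes. -/

namespace Pool.Agent.Lib.MP_1ae3da_al.Old.WreathClosure

open Pool.Agent.Lib.MP_1ae3da_al

/-- The McKay-Galois conjecture for the group `G` and the Sylow subgroup `P`. -/
def MN (p : ℕ) (G : Type) [Group G] (P : Sylow p G) : Prop :=
  ∃ f : NSV.IrrP p G ≃ NSV.IrrP p (Subgroup.normalizer (P : Set G)),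
    ∀ σ ∈ NSV.H0 p, ∀ χ ψ : NSV.IrrP p G, ψ.1 = σ ∘ χ.1 → (f ψ).1 = σ ∘ (f χ).1

theorem wreath_closure (p : ℕ) (hp : p.Prime) (hp2 : p ≠ 2) (G : Type) [Group G] [Finite G]
    (P : Sylow p G) (h : MN p G P) (n : ℕ) (K : Subgroup (Equiv.Perm (Fin n)))
    (hK : alternatingGroup (Fin n) ≤ K) (R : Sylow p ((Fin n → G) ⋊[mulAutArrow] K)) :
    MN p ((Fin n → G) ⋊[mulAutArrow] K) R :=
  (Wr.eb_iff p _ _ _).2 (Wr.closure_wr p hp hp2 G P (Fin n) K hK R ((Wr.eb_iff p _ _ _).1 h))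

end Pool.Agent.Lib.MP_1ae3da_al.Old.WreathClosure
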